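import Pool.Agent.Lib.TFP.Topo

/-!
Module D1 of the project `TFP` for ordinary plane drawings: every edge is drawn once.
(The copy of the frozen drawing in `Lib/TFP/Defs` asks for disjoint arcs for the two orientations of
an edge, because `Sym2.mk` is curried; the proof never used this.)
-/

set_option autoImplicit false

namespace Pool.Agent.H46F

open Finset Pool.Agent.TFP

/-- A plane drawing with simple arcs; the arcs of the two orientations of an edge are not compared. -/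
def HasArcs {V : Type} (G : SimpleGraph V) : Prop :=
  ∃ (p : V → ℝ × ℝ) (γ : V → V → unitInterval → ℝ × ℝ),
    Function.Injective p ∧
    (∀ u v, G.Adj u v →
      Continuous (γ u v) ∧ Function.Injective (γ u v) ∧
      γ u v 0 = p u ∧ γ u v 1 = p v ∧
      (∀ t, γ u v t ∈ Set.range p → t = 0 ∨ t = 1)) ∧
    (∀ u v x y, G.Adj u v → G.Adj x y → s(u, v) ≠ s(x, y) →
      ∀ s t, γ u v s = γ x y t → s = 0 ∨ s = 1)

theorem exists_minor_of_hasArcs {V : Type} [Fintype V] (G : SimpleGraph V) (h : HasArcs G) :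
    ∃ N : ℕ, IsMinorOf G (triBox N) := by
  classical
  obtain ⟨p, γ, hp, hγ, hcross⟩ := h
  set a : Sym2 V → V := fun e => (Quot.out e).1 with ha
  set b : Sym2 V → V := fun e => (Quot.out e).2 with hb
  have hab : ∀ e : Sym2 V, s(a e, b e) = e := fun e => Quot.out_eq e
  have hadj : ∀ e ∈ G.edgeSet, G.Adj (a e) (b e) := by
    intro e he
    rwa [← hab e, SimpleGraph.mem_edgeSet] at he
  set c : Sym2 V → ℝ → ℝ × ℝ :=
    fun e t => γ (a e) (b e) (Set.projIcc 0 1 zero_le_one t) with hc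
  have hproj : ∀ t ∈ Set.Icc (0 : ℝ) 1, ((Set.projIcc 0 1 zero_le_one t : Set.Icc (0 : ℝ) 1) : ℝ) = t := by
    intro t ht
    rw [Set.projIcc_of_mem _ ht]
  have hcont : ∀ e ∈ G.edgeSet, Continuous (c e) := fun e he =>
    (hγ _ _ (hadj e he)).1.comp continuous_projIcc
  have hc0 : ∀ e ∈ G.edgeSet, c e 0 = p (a e) := by
    intro e he
    have : Set.projIcc (0 : ℝ) 1 zero_le_one 0 = 0 := Set.projIcc_left _
    simp only [hc, this]
    exact (hγ _ _ (hadj e he)).2.2.1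
  have hc1 : ∀ e ∈ G.edgeSet, c e 1 = p (b e) := by
    intro e he
    have : Set.projIcc (0 : ℝ) 1 zero_le_one 1 = 1 := Set.projIcc_right _
    simp only [hc, this]
    exact (hγ _ _ (hadj e he)).2.2.2.1
  have F0 : ∀ t ∈ Set.Ioo (0 : ℝ) 1, (Set.projIcc 0 1 zero_le_one t : Set.Icc (0 : ℝ) 1) ≠ 0 ∧
      (Set.projIcc 0 1 zero_le_one t : Set.Icc (0 : ℝ) 1) ≠ 1 := by
    intro t ht
    have h1 := hproj t ⟨ht.1.le, ht.2.le⟩
    constructor
    · intro h0
      rw [h0] at h1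
      exact ht.1.ne h1
    · intro h0
      rw [h0] at h1
      exact ht.2.ne' h1
  have F1 : ∀ e ∈ G.edgeSet, ∀ t ∈ Set.Ioo (0 : ℝ) 1, ∀ w, c e t ≠ p w := by
    intro e he t ht w heq
    have := (hγ _ _ (hadj e he)).2.2.2.2 (Set.projIcc 0 1 zero_le_one t) ⟨w, heq.symm⟩
    rcases this with h | h
    · exact (F0 t ht).1 h
    · exact (F0 t ht).2 h
  have F2 : ∀ e ∈ G.edgeSet, ∀ e' ∈ G.edgeSet, e ≠ e' → ∀ s ∈ Set.Ioo (0 : ℝ) 1, ∀ t,
      c e s ≠ c e' t := by
    intro e he e' he' hee' s hs t heq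
    have := hcross (a e) (b e) (a e') (b e') (hadj e he) (hadj e' he')
      (by rw [hab e, hab e']; exact hee') _ _ heq
    rcases this with h | h
    · exact (F0 s hs).1 h
    · exact (F0 s hs).2 h
  have F3 : ∀ e ∈ G.edgeSet, ∀ s ∈ Set.Icc (0 : ℝ) 1, ∀ t ∈ Set.Icc (0 : ℝ) 1,
      c e s = c e t → s = t := by
    intro e he s hs t ht heq
    have := (hγ _ _ (hadj e he)).2.1 heq
    rw [← hproj s hs, ← hproj t ht, this]
  -- the sets
  set P : V → Sym2 V → Set (ℝ × ℝ) := fun v e =>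
    if e ∈ G.edgeSet ∧ a e = v then c e '' Set.Icc 0 (1 / 3)
    else if e ∈ G.edgeSet ∧ b e = v then c e '' Set.Icc (2 / 3) 1
    else {p v} with hP
  have hPmem : ∀ v e, p v ∈ P v e := by
    intro v e
    simp only [hP]
    split_ifs with h1 h2
    · exact ⟨0, ⟨le_rfl, by norm_num⟩, by rw [hc0 e h1.1, h1.2]⟩
    · exact ⟨1, ⟨by norm_num, le_rfl⟩, by rw [hc1 e h2.1, h2.2]⟩
    · exact Set.mem_singleton _
  have hPcomp : ∀ v e, IsCompact (P v e) := by
    intro v e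
    simp only [hP]
    split_ifs with h1 h2
    · exact isCompact_Icc.image (hcont e h1.1)
    · exact isCompact_Icc.image (hcont e h2.1)
    · exact isCompact_singleton
  have hPpre : ∀ v e, IsPreconnected (P v e) := by
    intro v e
    simp only [hP]
    split_ifs with h1 h2
    · exact isPreconnected_Icc.image _ (hcont e h1.1).continuousOn
    · exact isPreconnected_Icc.image _ (hcont e h2.1).continuousOn
    · exact isPreconnected_singleton
  have hPchar : ∀ v e q, q ∈ P v e → q = p v ∨ (e ∈ G.edgeSet ∧ ∃ t ∈ Set.Ioo (0 : ℝ) 1,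
      c e t = q ∧ ((a e = v ∧ t ≤ 1 / 3) ∨ (b e = v ∧ 2 / 3 ≤ t))) := by
    intro v e q hq
    simp only [hP] at hq
    split_ifs at hq with h1 h2
    · obtain ⟨t, ht, rfl⟩ := hq
      rcases eq_or_lt_of_le ht.1 with h0 | h0
      · left
        rw [← h0, hc0 e h1.1, h1.2]
      · right
        exact ⟨h1.1, t, ⟨h0, by linarith [ht.2]⟩, rfl, Or.inl ⟨h1.2, ht.2⟩⟩
    · obtain ⟨t, ht, rfl⟩ := hq
      rcases eq_or_lt_of_le ht.2 with h0 | h0
      · left
        rw [h0, hc1 e h2.1, h2.2]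
      · right
        exact ⟨h2.1, t, ⟨by linarith [ht.1], h0⟩, rfl, Or.inr ⟨h2.2, ht.1⟩⟩
    · exact Or.inl hq
  set K : V ⊕ G.edgeSet → Set (ℝ × ℝ) := fun x => match x with
    | Sum.inl v => ⋃ e : Sym2 V, P v e
    | Sum.inr e => c e '' Set.Icc (1 / 3) (2 / 3) with hKdef
  have hT : ∀ v q, q ∈ K (Sum.inl v) → q = p v ∨ ∃ e ∈ G.edgeSet, ∃ t ∈ Set.Ioo (0 : ℝ) 1,
      c e t = q ∧ ((a e = v ∧ t ≤ 1 / 3) ∨ (b e = v ∧ 2 / 3 ≤ t)) := by
    intro v q hq
    obtain ⟨e, he⟩ := Set.mem_iUnion.mp hq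
    rcases hPchar v e q he with h | h
    · exact Or.inl h
    · exact Or.inr ⟨e, h⟩
  have hM : ∀ (e : G.edgeSet) q, q ∈ K (Sum.inr e) → ∃ t ∈ Set.Ioo (0 : ℝ) 1, c e t = q ∧
      1 / 3 ≤ t ∧ t ≤ 2 / 3 := by
    rintro e q ⟨t, ht, rfl⟩
    exact ⟨t, ⟨by linarith [ht.1], by linarith [ht.2]⟩, rfl, ht⟩
  obtain ⟨N, I, hI1, hI2, hI3⟩ := exists_box K (by
    rintro (v | e)
    · exact isCompact_iUnion (hPcomp v)
    · exact isCompact_Icc.image (hcont e e.2)) (by
    rintro (v | e)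
    · refine ⟨⟨p v, Set.mem_iUnion.mpr ⟨s(v, v), hPmem v _⟩⟩, ?_⟩
      exact isPreconnected_iUnion ⟨p v, Set.mem_iInter.mpr (hPmem v)⟩ (hPpre v)
    · refine ⟨⟨c e (1 / 3), 1 / 3, ⟨le_rfl, by norm_num⟩, rfl⟩, ?_⟩
      exact isPreconnected_Icc.image _ (hcont e e.2).continuousOn)
  have hend : ∀ e ∈ G.edgeSet, ∀ v, a e = v ∨ b e = v → v ∈ e := by
    intro e _ v hv
    rcases hv with rfl | rfl
    · have := Sym2.mem_mk_left (a e) (b e)
      rwa [hab e] at this
    · have := Sym2.mem_mk_right (a e) (b e)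
      rwa [hab e] at this
  refine ⟨N, isMinorOf_of_models (fun v => I (Sum.inl v))
    (fun e => if h : e ∈ G.edgeSet then I (Sum.inr ⟨e, h⟩) else ∅) ?_ ?_ ?_ ?_ ?_ ?_⟩
  · exact fun v => hI1 _
  · intro u v huv
    apply hI2
    rw [Set.disjoint_left]
    intro q hq1 hq2
    rcases hT u q hq1 with h1 | ⟨e, he, t, ht, rfl, h1⟩
    · rcases hT v q hq2 with h2 | ⟨e, he, t, ht, rfl, h2⟩
      · exact huv (hp (h1.symm.trans h2))
      · exact F1 e he t ht u h1
    · rcases hT v _ hq2 with h2 | ⟨e', he', t', ht', heq, h2⟩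
      · exact F1 e he t ht v h2
      · by_cases hee' : e = e'
        · subst hee'
          have := F3 e he t' ⟨ht'.1.le, ht'.2.le⟩ t ⟨ht.1.le, ht.2.le⟩ heq
          subst this
          rcases h1 with h1 | h1 <;> rcases h2 with h2 | h2
          · exact huv (h1.1.symm.trans h2.1)
          · linarith [h1.2, h2.2]
          · linarith [h1.2, h2.2]
          · exact huv (h1.1.symm.trans h2.1)
        · exact F2 e he e' he' hee' t ht t' heq.symm
  · intro e he
    rw [dif_pos he]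
    exact hI1 _
  · intro e he v hv
    rw [dif_pos he]
    apply hI3
    rw [← hab e, Sym2.mem_iff] at hv
    rcases hv with rfl | rfl
    · refine ⟨c e (1 / 3), ⟨1 / 3, ⟨le_rfl, by norm_num⟩, rfl⟩, Set.mem_iUnion.mpr ⟨e, ?_⟩⟩
      simp only [hP, he, true_and, if_true]
      exact ⟨1 / 3, ⟨by norm_num, le_rfl⟩, rfl⟩
    · refine ⟨c e (2 / 3), ⟨2 / 3, ⟨by norm_num, le_rfl⟩, rfl⟩, Set.mem_iUnion.mpr ⟨e, ?_⟩⟩
      have hne : a e ≠ b e := (hadj e he).ne
      simp only [hP, he, true_and, if_true, if_neg hne]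
      exact ⟨2 / 3, ⟨le_rfl, by norm_num⟩, rfl⟩
  · intro e he v hv
    rw [dif_pos he]
    apply hI2
    rw [Set.disjoint_left]
    intro q hq1 hq2
    obtain ⟨t, ht, rfl, _⟩ := hM ⟨e, he⟩ q hq1
    rcases hT v _ hq2 with h2 | ⟨e', he', t', ht', heq, h2⟩
    · exact F1 e he t ht v h2
    · by_cases hee' : e = e'
      · subst hee'
        apply hv
        rcases h2 with h2 | h2
        · exact hend e he v (Or.inl h2.1)
        · exact hend e he v (Or.inr h2.1)
      · exact F2 e he e' he' hee' t ht t' heq.symm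
  · intro e he e' he' hee'
    rw [dif_pos he, dif_pos he']
    apply hI2
    rw [Set.disjoint_left]
    intro q hq1 hq2
    obtain ⟨t, ht, rfl, _⟩ := hM ⟨e, he⟩ q hq1
    obtain ⟨t', ht', heq, _⟩ := hM ⟨e', he'⟩ _ hq2
    exact F2 e he e' he' hee' t ht t' heq.symm

end Pool.Agent.H46F
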