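import Mathlib

/-!
Planar graphs and `(a, b)`-choosability, in the words of the problem `MP_72f88e_co`.
-/

set_option autoImplicit false

namespace Pool.Agent.H46F

universe u v

/-- `G` is planar: it has a drawing in the plane without crossings. The vertices are distinct points
`p x`, each edge `e` is a simple arc `γ e` joining the points of its two ends, an arc contains no
point of a vertex except at its two ends, and the arcs of two different edges have no common point
except (possibly) a common end. -/
def IsPlanar {V : Type u} (G : SimpleGraph V) : Prop :=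
  ∃ (p : V → ℝ × ℝ) (γ : G.edgeSet → unitInterval → ℝ × ℝ),
    Function.Injective p ∧
    (∀ e, Continuous (γ e) ∧ Function.Injective (γ e)) ∧
    (∀ e : G.edgeSet, ∃ x y, (e : Sym2 V) = s(x, y) ∧ γ e 0 = p x ∧ γ e 1 = p y) ∧
    (∀ e t x, γ e t = p x → t = 0 ∨ t = 1) ∧
    (∀ e e', e ≠ e' → ∀ t t', γ e t = γ e' t' → (t = 0 ∨ t = 1) ∧ (t' = 0 ∨ t' = 1))

/-- `G` is `(a, b)`-choosable: for all lists `L x` of `a` colours (from any set of colours) one can
choose sets `C x ⊆ L x` of `b` colours such that `C x` and `C y` are disjoint whenever `x` and `y`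
are adjacent. -/
def IsChoosable {V : Type u} (G : SimpleGraph V) (a b : ℕ) : Prop :=
  ∀ (Colour : Type v) (L : V → Finset Colour), (∀ x, (L x).card = a) →
    ∃ C : V → Finset Colour, (∀ x, C x ⊆ L x ∧ (C x).card = b) ∧
      ∀ x y, G.Adj x y → Disjoint (C x) (C y)

end Pool.Agent.H46F
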