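import Pool.Agent.Lib.H46F.Final

/-!
Triangle-free planar graphs are `(4m-1, m)`-choosable for all large `m`; more precisely they are
`(a, m)`-choosable for all large `m` and all `a ≥ (4 - 1/50) m`.
-/

set_option autoImplicit false

namespace Pool.Agent.H46F.Draft

universe u v

/-- There is `m₀` such that for all integers `m ≥ m₀` and `a ≥ (4 - 1/50) m` every finite
triangle-free planar graph is `(a, m)`-choosable. As `m₀ ≥ 50`, this contains `a = 4 m - 1` for
every `m ≥ m₀`. -/
theorem result : ∃ m₀ : ℕ, 50 ≤ m₀ ∧ ∀ m ≥ m₀, ∀ a : ℕ, 199 * m ≤ 50 * a →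
    ∀ (V : Type u) [Finite V] (G : SimpleGraph V), G.CliqueFree 3 → H46F.IsPlanar G →
      H46F.IsChoosable.{u, v} G a m :=
  H46F.all_large_m

end Pool.Agent.H46F.Draft
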