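import Pool.Agent.Lib.H46F.Main
import Pool.Agent.Lib.H46F.Defs

/-!
Triangle-free planar graphs are `(a, m)`-choosable for all large `m` and all `a ≥ (4 - 1/50) m`:
transport of `all_large` to all finite types and all sets of colours.
-/

set_option autoImplicit false

namespace Pool.Agent.H46F

universe u v

theorem hasArcs_comap {V : Type u} (G : SimpleGraph V) (hG : IsPlanar G) {W : Type}
    (e : W ≃ V) : HasArcs (G.comap e) := by
  classical
  obtain ⟨p, γ, hp, hγ, hends, hvert, hcross⟩ := hG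
  let δ : W → W → unitInterval → ℝ × ℝ := fun a b t =>
    if h : G.Adj (e a) (e b) then
      (if γ ⟨s(e a, e b), G.mem_edgeSet.mpr h⟩ 0 = p (e a) then γ ⟨s(e a, e b), G.mem_edgeSet.mpr h⟩ t
        else γ ⟨s(e a, e b), G.mem_edgeSet.mpr h⟩ (unitInterval.symm t))
    else (0, 0)
  have hδ : ∀ a b (h : G.Adj (e a) (e b)),
      ∃ r : unitInterval → unitInterval, Continuous r ∧ Function.Injective r ∧
        (∀ t, r t = 0 ∨ r t = 1 → t = 0 ∨ t = 1) ∧
        (∀ t, δ a b t = γ ⟨s(e a, e b), G.mem_edgeSet.mpr h⟩ (r t)) ∧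
        γ ⟨s(e a, e b), G.mem_edgeSet.mpr h⟩ (r 0) = p (e a) ∧ γ ⟨s(e a, e b), G.mem_edgeSet.mpr h⟩ (r 1) = p (e b) := by
    intro a b h
    obtain ⟨x, y, hxy, h0, h1⟩ := hends ⟨s(e a, e b), G.mem_edgeSet.mpr h⟩
    simp only [Sym2.eq_iff] at hxy
    by_cases hc : γ ⟨s(e a, e b), G.mem_edgeSet.mpr h⟩ 0 = p (e a)
    · refine ⟨id, continuous_id, Function.injective_id, fun t ht => ht, ?_, hc, ?_⟩
      · intro t
        simp only [δ, h, hc, dite_true, if_true, id]
      · rcases hxy with ⟨h2, h3⟩ | ⟨h2, h3⟩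
        · simp only [id]; rw [h1, h3]
        · exfalso
          rw [h0] at hc
          have := hp hc
          rw [← h3] at this
          exact h.ne this.symm
    · refine ⟨unitInterval.symm, unitInterval.continuous_symm, unitInterval.symm_bijective.1,
        ?_, ?_, ?_, ?_⟩
      · intro t ht
        rcases ht with ht | ht
        · right
          have := congrArg unitInterval.symm ht
          simpa using this
        · left
          have := congrArg unitInterval.symm ht
          simpa using this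
      · intro t
        simp only [δ, h, hc, dite_true, if_false]
      · rcases hxy with ⟨h2, h3⟩ | ⟨h2, h3⟩
        · exact absurd (by rw [h0, h2]) hc
        · simp only [unitInterval.symm_zero]; rw [h1, h2]
      · rcases hxy with ⟨h2, h3⟩ | ⟨h2, h3⟩
        · exact absurd (by rw [h0, h2]) hc
        · simp only [unitInterval.symm_one]; rw [h0, h3]
  refine ⟨fun a => p (e a), δ, hp.comp e.injective, ?_, ?_⟩
  · intro a b hab
    have h : G.Adj (e a) (e b) := hab
    obtain ⟨r, hr1, hr2, hr3, hr4, hr5, hr6⟩ := hδ a b h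
    have hfun : δ a b = γ ⟨s(e a, e b), G.mem_edgeSet.mpr h⟩ ∘ r := funext hr4
    refine ⟨?_, ?_, ?_, ?_, ?_⟩
    · rw [hfun]; exact (hγ _).1.comp hr1
    · rw [hfun]; exact (hγ _).2.comp hr2
    · rw [hr4, hr5]
    · rw [hr4, hr6]
    · rintro t ⟨c, hc⟩
      rw [hr4] at hc
      exact hr3 t (hvert _ _ _ hc.symm)
  · intro a b c d hab hcd hne s t hst
    have h : G.Adj (e a) (e b) := hab
    have h' : G.Adj (e c) (e d) := hcd
    obtain ⟨r, hr1, hr2, hr3, hr4, hr5, hr6⟩ := hδ a b h
    obtain ⟨r', hr1', hr2', hr3', hr4', hr5', hr6'⟩ := hδ c d h'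
    rw [hr4, hr4'] at hst
    refine hr3 s (hcross _ _ ?_ _ _ hst).1
    intro heq
    have h2 : s(e a, e b) = s(e c, e d) := congrArg Subtype.val heq
    apply hne
    rcases Sym2.eq_iff.mp h2 with ⟨h3, h4⟩ | ⟨h3, h4⟩
    · rw [e.injective h3, e.injective h4]
    · rw [e.injective h3, e.injective h4]
      exact Sym2.eq_swap

theorem all_large_m : ∃ m₀ : ℕ, 50 ≤ m₀ ∧ ∀ m ≥ m₀, ∀ a : ℕ, 199 * m ≤ 50 * a →
    ∀ (V : Type u) [Finite V] (G : SimpleGraph V), G.CliqueFree 3 → IsPlanar G →
      IsChoosable.{u, v} G a m := by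
  obtain ⟨m₀, h50, hmain⟩ := all_large
  refine ⟨m₀, h50, ?_⟩
  intro m hm a ha V hV G h3 hG Colour L hL
  classical
  have : Fintype V := Fintype.ofFinite V
  let e : Fin (Fintype.card V) ≃ V := (Fintype.equivFin V).symm
  let S : Finset Colour := Finset.univ.biUnion L
  let g : Colour → ℕ := fun c => if h : c ∈ S then (S.equivFin ⟨c, h⟩ : ℕ) else 0
  have hg : ∀ x, Set.InjOn g (L x) := by
    intro x c hc d hd hcd
    have hc' : c ∈ S := Finset.mem_biUnion.mpr ⟨x, Finset.mem_univ _, hc⟩
    have hd' : d ∈ S := Finset.mem_biUnion.mpr ⟨x, Finset.mem_univ _, hd⟩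
    simp only [g, hc', hd', dite_true] at hcd
    exact congrArg Subtype.val (S.equivFin.injective (Fin.ext hcd))
  have hgS : ∀ c ∈ S, ∀ d ∈ S, g c = g d → c = d := by
    intro c hc' d hd' hcd
    simp only [g, hc', hd', dite_true] at hcd
    exact congrArg Subtype.val (S.equivFin.injective (Fin.ext hcd))
  have hfree : (G.comap e).CliqueFree 3 := h3.comap ⟨(SimpleGraph.Embedding.comap e.toEmbedding G).toCopy⟩
  obtain ⟨f, hf1, hf2⟩ := hmain m hm a ha (Fin (Fintype.card V)) (G.comap e) hfree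
    (hasArcs_comap G hG e) (fun i => (L (e i)).image g) (by
      intro i
      rw [Finset.card_image_of_injOn (hg _), hL])
  refine ⟨fun x => (L x).filter (fun c => g c ∈ f (e.symm x)), ?_, ?_⟩
  · intro x
    refine ⟨Finset.filter_subset _ _, ?_⟩
    obtain ⟨h1, h2⟩ := hf1 (e.symm x)
    simp only [Equiv.apply_symm_apply] at h1
    have h3 : ((L x).filter (fun c => g c ∈ f (e.symm x))).image g = f (e.symm x) := by
      ext k
      simp only [Finset.mem_image, Finset.mem_filter]
      constructor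
      · rintro ⟨c, ⟨_, hc⟩, rfl⟩
        exact hc
      · intro hk
        obtain ⟨c, hc, rfl⟩ := Finset.mem_image.mp (h1 hk)
        exact ⟨c, ⟨hc, hk⟩, rfl⟩
    have h4 : ((L x).filter (fun c => g c ∈ f (e.symm x))).card =
        (((L x).filter (fun c => g c ∈ f (e.symm x))).image g).card :=
      (Finset.card_image_of_injOn ((hg x).mono (fun c hc => (Finset.mem_filter.mp hc).1))).symm
    rw [h4, h3, h2]
  · intro x y hxy
    rw [Finset.disjoint_left]
    intro c hc hc'
    obtain ⟨_, h1⟩ := Finset.mem_filter.mp hc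
    obtain ⟨_, h2⟩ := Finset.mem_filter.mp hc'
    have hadj : (G.comap e).Adj (e.symm x) (e.symm y) := by
      simpa [SimpleGraph.comap_adj] using hxy
    exact Finset.disjoint_left.mp (hf2 _ _ hadj) h1 h2

end Pool.Agent.H46F
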