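import Pool.Agent.Lib.TFP.ListCol

/-!
The list colouring argument of `Lib/TFP/ListCol` with its slack made explicit: lists of size
`195 q + 50 * 2 ^ R` suffice for sets of `49 q` colours, for every large `q`.
-/

set_option autoImplicit false

namespace Pool.Agent.H46F

open Finset Pool.Agent.TFP

theorem colour_piece_slack {V : Type} [DecidableEq V] (G : SimpleGraph V) (h3 : G.CliqueFree 3)
    (κ : G.Coloring (Fin 3)) (R q : ℕ) (hq : 920 * 2 ^ R ≤ q) (K : Finset V)
    (hK : K.card ≤ R) (cap : V → ℕ) (hcap : ∀ v ∈ K, cap v ≤ 2)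
    (h : ∀ F ⊆ K, 50 * edgesIn G F ≤ 50 * ∑ v ∈ F, cap v + F.card)
    (A : V → Finset ℕ) (hA : ∀ v ∈ K, (cap v + 2) * (49 * q) + 50 * 2 ^ R ≤ (A v).card + q) :
    ∃ C : V → Finset ℕ, (∀ v ∈ K, C v ⊆ A v ∧ (C v).card = 49 * q) ∧
      ∀ u ∈ K, ∀ v ∈ K, G.Adj u v → Disjoint (C u) (C v) := by
  classical
  obtain ⟨out, hcov, hbad⟩ := hall_orient G K cap h
  obtain ⟨s, hs⟩ := split_types K A 50 (by norm_num)
  let W : Fin 50 → Finset V := fun i => K.filter (fun v => (out i v ∩ K).card ≤ cap v)
  have hWK : ∀ i, W i ⊆ K := fun i => Finset.filter_subset _ _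
  have hstep : ∀ i : Fin 50, ∃ C : V → Finset ℕ,
      (∀ v ∈ W i, C v ⊆ (A v).filter (fun c => s c = i) ∧ (C v).card = q) ∧
      ∀ u ∈ W i, ∀ v ∈ W i, G.Adj u v → Disjoint (C u) (C v) := by
    intro i
    refine colour_oriented G h3 κ R q hq (out i) (W i).card (W i) rfl
      ((Finset.card_le_card (hWK i)).trans hK)
      (fun u hu v hv huv => hcov i u (hWK i hu) v (hWK i hv) huv) ?_ _ ?_
    · intro v hv
      have h1 := (Finset.mem_filter.mp hv).2
      have h2 := Finset.card_le_card (Finset.inter_subset_inter_left (s := out i v) (hWK i))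
      have h3 := hcap v (hWK i hv)
      omega
    · intro v hv
      have h1 := (Finset.mem_filter.mp hv).2
      have h2 := Finset.card_le_card (Finset.inter_subset_inter_left (s := out i v) (hWK i))
      have hvK := hWK i hv
      have h3 := hcap v hvK
      have h4 := hs v hvK i
      have h5 := hA v hvK
      have h6 : 2 ^ K.card ≤ 2 ^ R := Nat.pow_le_pow_right (by norm_num) hK
      have h7 : (10 * (out i v ∩ W i).card + 19) * q ≤ (10 * cap v + 19) * q :=
        Nat.mul_le_mul_right _ (by omega)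
      refine h7.trans ?_
      have hc : cap v = 0 ∨ cap v = 1 ∨ cap v = 2 := by omega
      rcases hc with hc | hc | hc <;> rw [hc] at h5 ⊢ <;> omega
  choose C hC using hstep
  let D : V → Finset ℕ := fun v => (univ.filter (fun i => v ∈ W i)).biUnion (fun i => C i v)
  have hD1 : ∀ v ∈ K, D v ⊆ A v := by
    intro v hv c hc
    simp only [D, Finset.mem_biUnion, Finset.mem_filter, Finset.mem_univ, true_and] at hc
    obtain ⟨i, hi, hc⟩ := hc
    exact (Finset.mem_filter.mp (((hC i).1 v hi).1 hc)).1
  have hD2 : ∀ v ∈ K, 49 * q ≤ (D v).card := by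
    intro v hv
    have h1 : (D v).card = ∑ i ∈ univ.filter (fun i => v ∈ W i), (C i v).card := by
      refine Finset.card_biUnion ?_
      intro i hi j hj hij
      rw [Finset.mem_coe, Finset.mem_filter] at hi hj
      change Disjoint _ _
      rw [Finset.disjoint_left]
      intro c hc hc'
      have e1 := (Finset.mem_filter.mp (((hC i).1 v hi.2).1 hc)).2
      have e2 := (Finset.mem_filter.mp (((hC j).1 v hj.2).1 hc')).2
      exact hij (e1.symm.trans e2)
    have h2 : ∑ i ∈ univ.filter (fun i => v ∈ W i), (C i v).card =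
        (univ.filter (fun i => v ∈ W i)).card * q := by
      rw [Finset.sum_const_nat]
      intro i hi
      exact ((hC i).1 v (Finset.mem_filter.mp hi).2).2
    have h3 : 49 ≤ (univ.filter (fun i : Fin 50 => v ∈ W i)).card := by
      have h4 := hbad v hv
      have h5 := Finset.card_filter_add_card_filter_not (s := (univ : Finset (Fin 50)))
        (fun i => cap v < (out i v ∩ K).card)
      have h6 : (univ.filter (fun i : Fin 50 => ¬ cap v < (out i v ∩ K).card)) =
          univ.filter (fun i : Fin 50 => v ∈ W i) := by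
        ext i
        simp only [Finset.mem_filter, Finset.mem_univ, true_and, W, hv, not_lt]
      rw [h6, Finset.card_univ, Fintype.card_fin] at h5
      omega
    rw [h1, h2]
    exact Nat.mul_le_mul_right _ h3
  have hD3 : ∀ u ∈ K, ∀ v ∈ K, G.Adj u v → Disjoint (D u) (D v) := by
    intro u hu v hv huv
    rw [Finset.disjoint_left]
    intro c hc hc'
    simp only [D, Finset.mem_biUnion, Finset.mem_filter, Finset.mem_univ, true_and] at hc hc'
    obtain ⟨i, hi, hc⟩ := hc
    obtain ⟨j, hj, hc'⟩ := hc'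
    have e1 := (Finset.mem_filter.mp (((hC i).1 u hi).1 hc)).2
    have e2 := (Finset.mem_filter.mp (((hC j).1 v hj).1 hc')).2
    have hij : i = j := e1.symm.trans e2
    subst hij
    exact Finset.disjoint_left.mp ((hC i).2 u hi v hj huv) hc hc'
  have hex : ∀ v, ∃ D' : Finset ℕ, v ∈ K → D' ⊆ D v ∧ D'.card = 49 * q := by
    intro v
    by_cases hv : v ∈ K
    · obtain ⟨D', hD1', hD2'⟩ := Finset.exists_subset_card_eq (hD2 v hv)
      exact ⟨D', fun _ => ⟨hD1', hD2'⟩⟩
    · exact ⟨∅, fun h => absurd h hv⟩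
  choose D' hD' using hex
  refine ⟨D', fun v hv => ⟨(hD' v hv).1.trans (hD1 v hv), (hD' v hv).2⟩, ?_⟩
  intro u hu v hv huv
  exact Finset.disjoint_of_subset_left (hD' u hu).1
    (Finset.disjoint_of_subset_right (hD' v hv).1 (hD3 u hu v hv huv))

theorem list_slack {V : Type} [Fintype V] (G : SimpleGraph V) (R q : ℕ) (hq : 920 * 2 ^ R ≤ q)
    (h3 : G.CliqueFree 3) (hcol : G.Colorable 3)
    (hpiece : ∀ U : Finset V, U.Nonempty →
      ∃ C ⊆ U, C.Nonempty ∧ C.card ≤ R ∧ 50 * inc G U C ≤ 101 * C.card)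
    (a : ℕ) (ha : 195 * q + 50 * 2 ^ R ≤ a)
    (L : V → Finset ℕ) (hL : ∀ v, (L v).card = a) :
      ∃ f : V → Finset ℕ, (∀ v, f v ⊆ L v ∧ (f v).card = 49 * q) ∧
        ∀ u v, G.Adj u v → Disjoint (f u) (f v) := by
  classical
  obtain ⟨κ⟩ := hcol
  have main : ∀ (n : ℕ) (U : Finset V), U.card = n →
      ∃ f : V → Finset ℕ, (∀ v ∈ U, f v ⊆ L v ∧ (f v).card = 49 * q) ∧
        ∀ u ∈ U, ∀ v ∈ U, G.Adj u v → Disjoint (f u) (f v) := by
    intro n
    induction n using Nat.strong_induction_on with
    | _ n ih =>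
    intro U hU
    rcases U.eq_empty_or_nonempty with rfl | hne
    · exact ⟨fun _ => ∅, by simp, by simp⟩
    obtain ⟨C, hCU, hC, hCR, hinc⟩ := hpiece U hne
    obtain ⟨K, hKC, hK, hcore⟩ := exists_core G U C hCU hC hinc
    have hKU : K ⊆ U := hKC.trans hCU
    have hlt : (U \ K).card < n := by
      rw [← hU]
      refine Finset.card_lt_card ⟨Finset.sdiff_subset, fun h => ?_⟩
      obtain ⟨x, hx⟩ := hK
      exact (Finset.mem_sdiff.mp (h (hKU hx))).2 hx
    obtain ⟨f0, hf0, hf0'⟩ := ih _ hlt (U \ K) rfl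
    let d : V → ℕ := fun v => ((U \ K).filter (fun u => G.Adj v u)).card
    have hd : ∀ v ∈ K, d v ≤ 2 := by
      intro v hv
      have := hcore {v} (Finset.singleton_subset_iff.mpr hv)
      simp only [Finset.sum_singleton, Finset.card_singleton] at this
      simp only [d]
      omega
    let cap : V → ℕ := fun v => 2 - d v
    have hcapsum : ∀ F ⊆ K, ∑ v ∈ F, cap v + ∑ v ∈ F, d v = 2 * F.card := by
      intro F hF
      rw [← Finset.sum_add_distrib, Finset.sum_const_nat (m := 2)]
      · ring
      · intro v hv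
        have := hd v (hF hv)
        simp only [cap]
        omega
    let A : V → Finset ℕ := fun v =>
      L v \ ((U \ K).filter (fun u => G.Adj v u)).biUnion f0
    have hA : ∀ v ∈ K, (cap v + 2) * (49 * q) + 50 * 2 ^ R ≤ (A v).card + q := by
      intro v hv
      have h1 : (((U \ K).filter (fun u => G.Adj v u)).biUnion f0).card ≤ d v * (49 * q) := by
        refine Finset.card_biUnion_le.trans ?_
        rw [Finset.sum_const_nat (m := 49 * q)]
        intro u hu
        exact (hf0 u (Finset.mem_filter.mp hu).1).2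
      have h2 := Finset.le_card_sdiff (((U \ K).filter (fun u => G.Adj v u)).biUnion f0) (L v)
      have h3 := hL v
      have h4 := hd v hv
      simp only [cap, A]
      have hc : d v = 0 ∨ d v = 1 ∨ d v = 2 := by omega
      rcases hc with hc | hc | hc <;> rw [hc] at h1 ⊢ <;> omega
    obtain ⟨f1, hf1, hf1'⟩ := colour_piece_slack G h3 κ R q hq K
      ((Finset.card_le_card hKC).trans hCR) cap (fun v _ => Nat.sub_le _ _) (by
        intro F hF
        have h1 := hcore F hF
        have h2 := hcapsum F hF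
        simp only [d] at h2
        omega) A hA
    refine ⟨fun v => if v ∈ K then f1 v else f0 v, ?_, ?_⟩
    · intro v hv
      by_cases hvK : v ∈ K
      · simp only [hvK, if_true]
        exact ⟨(hf1 v hvK).1.trans Finset.sdiff_subset, (hf1 v hvK).2⟩
      · simp only [hvK, if_false]
        exact hf0 v (Finset.mem_sdiff.mpr ⟨hv, hvK⟩)
    · have key : ∀ u ∈ K, ∀ v ∈ U \ K, G.Adj u v → Disjoint (f1 u) (f0 v) := by
        intro u hu v hv huv
        refine Finset.disjoint_of_subset_left (hf1 u hu).1 ?_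
        refine Finset.disjoint_of_subset_right ?_ Finset.sdiff_disjoint
        intro c hc
        exact Finset.mem_biUnion.mpr ⟨v, Finset.mem_filter.mpr ⟨hv, huv⟩, hc⟩
      intro u hu v hv huv
      by_cases huK : u ∈ K
      · by_cases hvK : v ∈ K
        · simp only [huK, hvK, if_true]
          exact hf1' u huK v hvK huv
        · simp only [huK, hvK, if_true, if_false]
          exact key u huK v (Finset.mem_sdiff.mpr ⟨hv, hvK⟩) huv
      · by_cases hvK : v ∈ K
        · simp only [huK, hvK, if_true, if_false]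
          exact (key v hvK u (Finset.mem_sdiff.mpr ⟨hu, huK⟩) huv.symm).symm
        · simp only [huK, hvK, if_false]
          exact hf0' u (Finset.mem_sdiff.mpr ⟨hu, huK⟩) v (Finset.mem_sdiff.mpr ⟨hv, hvK⟩) huv
  obtain ⟨f, hf1, hf2⟩ := main _ univ rfl
  exact ⟨f, fun v => hf1 v (Finset.mem_univ v),
    fun u v huv => hf2 u (Finset.mem_univ u) v (Finset.mem_univ v) huv⟩

end Pool.Agent.H46F
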