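import Pool.Agent.Lib.H46F.ListAll
import Pool.Agent.Lib.TFP.Grotzsch
import Pool.Agent.Lib.H46F.Arcs
import Pool.Agent.Lib.TFP.SmallPiece

/-!
Triangle-free planar graphs are `(a, m)`-choosable for all large `m` and all `a ≥ 3.98 m`.
-/

set_option autoImplicit false

namespace Pool.Agent.H46F

open Finset Pool.Agent

theorem all_large : ∃ m₀ : ℕ, 50 ≤ m₀ ∧ ∀ m ≥ m₀, ∀ a : ℕ, 199 * m ≤ 50 * a →
    ∀ (V : Type) [Fintype V] (G : SimpleGraph V), G.CliqueFree 3 → HasArcs G →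
    ∀ L : V → Finset ℕ, (∀ v, (L v).card = a) →
      ∃ f : V → Finset ℕ, (∀ v, f v ⊆ L v ∧ (f v).card = m) ∧
        ∀ u v, G.Adj u v → Disjoint (f u) (f v) := by
  obtain ⟨R, hR⟩ := TFP.exists_small_piece
  have hP : 1 ≤ 2 ^ R := Nat.one_le_two_pow
  refine ⟨1000000 * 2 ^ R, by omega, ?_⟩
  intro m hm a ha V _ G h3 hdraw L hL
  obtain ⟨N, hN⟩ := exists_minor_of_hasArcs G hdraw
  have hM : TFP.MPlanar G := (TFP.mPlanar_triBox N).minor hN
  obtain ⟨q, hq1, hq2⟩ : ∃ q, m ≤ 49 * q ∧ 49 * q ≤ m + 49 := ⟨m / 49 + 1, by omega, by omega⟩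
  obtain ⟨f, hf1, hf2⟩ := list_slack G R q (by omega) h3 (TFP.grotzsch G hM h3)
    (hR V G hM.not_hasK5Minor (hM.edgesIn_le h3)) a (by omega) L hL
  have hex : ∀ v, ∃ D : Finset ℕ, D ⊆ f v ∧ D.card = m := fun v =>
    Finset.exists_subset_card_eq (hq1.trans (hf1 v).2.ge)
  choose D hD using hex
  exact ⟨D, fun v => ⟨(hD v).1.trans (hf1 v).1, (hD v).2⟩, fun u v huv =>
    Finset.disjoint_of_subset_left (hD u).1
      (Finset.disjoint_of_subset_right (hD v).1 (hf2 u v huv))⟩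

end Pool.Agent.H46F
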